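import Mathlib
import Pool.Agent.H69.NetK.NA

/-!
# The Cheeger constants of k-net graphs decay exponentially, not faster

The optimal lower bound `f (1, 10, k)` satisfies `10 ^ (-k) ≤ f (1, 10, k) ≤ 1024 * 2 ^ (-k)` for
every `k ≥ 1`.
-/

set_option autoImplicit false

namespace Pool.Agent.Results.MP_f4bed7_co.ExponentialDecay

open SimpleGraph
open scoped ENNReal

/-- The edges with exactly one endpoint in `A`. -/
def edgeBoundary {V : Type} (G : SimpleGraph V) (A : Finset V) : Set (Sym2 V) :=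
  {e | ∃ u v, G.Adj u v ∧ u ∈ A ∧ v ∉ A ∧ e = s(u, v)}

/-- The Cheeger constant, valued in `[0, ∞]`. -/
noncomputable def cheeger {V : Type} (G : SimpleGraph V) : ℝ≥0∞ :=
  ⨅ (A : Finset V) (_ : A.Nonempty), ((edgeBoundary G A).encard : ℝ≥0∞) / (A.card : ℝ≥0∞)

/-- A `k`-net: maximal among the sets whose points are pairwise at distance at least `k`. -/
def IsNet {V : Type} (G : SimpleGraph V) (k : ℕ) (S : Set V) : Prop :=
  Maximal (fun T : Set V => ∀ u ∈ T, ∀ v ∈ T, u ≠ v → k ≤ G.dist u v) S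

/-- The `k`-net graph on `S`. -/
def netGraph {V : Type} (G : SimpleGraph V) (k : ℕ) (S : Set V) : SimpleGraph S where
  Adj u v := u ≠ v ∧ G.dist u.1 v.1 ≤ 2 * k
  symm := ⟨fun u v h => ⟨h.1.symm, by rw [dist_comm]; exact h.2⟩⟩
  loopless := ⟨fun u h => h.1 rfl⟩

/-- The optimal lower bound `f(h, d, k)`. -/
noncomputable def fBound (h : ℝ≥0∞) (d k : ℕ) : ℝ≥0∞ :=
  sInf {c | ∃ (V : Type) (G : SimpleGraph V) (S : Set V), G.Connected ∧ Infinite V ∧
    (∀ v, (G.neighborSet v).encard < d) ∧ h < cheeger G ∧ IsNet G k S ∧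
    c = cheeger (netGraph G k S)}

open Pool.Agent.H69.NetK

lemma card_le_boundary {V : Type} (G : SimpleGraph V) (A : Finset V) (B : Finset (V × V))
    (hB : ∀ p ∈ B, G.Adj p.1 p.2 ∧ p.1 ∈ A ∧ p.2 ∉ A) :
    (B.card : ℕ∞) ≤ (edgeBoundary G A).encard := by
  rw [← Set.encard_coe_eq_coe_finsetCard]
  apply Set.encard_le_encard_of_injOn (f := fun p : V × V => s(p.1, p.2))
  · intro p hp
    exact ⟨p.1, p.2, (hB p hp).1, (hB p hp).2.1, (hB p hp).2.2, rfl⟩
  · intro p hp q hq h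
    simp only [Sym2.eq_iff] at h
    rcases h with h | h
    · exact Prod.ext h.1 h.2
    · exact absurd (h.1 ▸ (hB p hp).2.1) (hB q hq).2.2

lemma cheeger_GG (m : ℕ) : (7 / 4 : ℝ≥0∞) ≤ cheeger (GG m) := by
  refine le_iInf fun A => le_iInf fun hA => ?_
  obtain ⟨B, hB, hc⟩ := expand A
  have h1 := ENat.toENNReal_le.2 (card_le_boundary _ A B hB)
  rw [ENat.toENNReal_coe] at h1
  have hpos : (A.card : ℝ≥0∞) ≠ 0 := by exact_mod_cast hA.card_pos.ne'
  rw [ENNReal.le_div_iff_mul_le (Or.inl hpos) (Or.inl (ENNReal.natCast_ne_top _))]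
  refine le_trans ?_ h1
  rw [mul_comm, ← mul_div_assoc, ENNReal.div_le_iff (by norm_num) (by norm_num)]
  have : A.card * 7 ≤ B.card * 4 := by omega
  exact_mod_cast this

def seed (m : ℕ) : Set (VV m) :=
  {v | v.i = m - 1 ∨ (v.l = 3 * m - (m + 1) / 2 ∧ v.y % 2 ^ ((m + 1) / 2 + 1) = 0)}

lemma seed_sep {m : ℕ} (hm : 2 ≤ m) :
    ∀ u ∈ seed m, ∀ v ∈ seed m, u ≠ v → m ≤ (GG m).dist u v := by
  have aux : ∀ u ∈ seed m, ∀ v ∈ seed m, u.l < v.l → m ≤ (GG m).dist u v := by
    intro u hu v hv hlt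
    have h := dist_lvl u v hlt
    have h1 := u.hl
    rcases hv with hv | hv
    · omega
    · rcases hu with hu | hu <;> omega
  intro u hu v hv hne
  rcases lt_trichotomy u.l v.l with h | h | h
  · exact aux u hu v hv h
  · have h1 := u.hl
    have h2 := v.hl
    rcases hu with hu | hu
    · rcases hv with hv | hv
      · have := dist_roots u v hu hv fun e => hne (VV.ext' h (by omega) e)
        omega
      · omega
    · rcases hv with hv | hv
      · omega
      · apply dist_top u v hu.1 hv.1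
        intro e
        apply hne
        refine VV.ext' h (by omega) ?_
        rw [← Nat.div_add_mod u.y (2 ^ ((m + 1) / 2 + 1)),
          ← Nat.div_add_mod v.y (2 ^ ((m + 1) / 2 + 1)), e, hu.2, hv.2]
  · rw [dist_comm]; exact aux v hv u hu h

lemma exists_net {m : ℕ} (hm : 2 ≤ m) : ∃ S, seed m ⊆ S ∧ IsNet (GG m) m S := by
  apply zorn_subset_nonempty
    {T : Set (VV m) | ∀ u ∈ T, ∀ v ∈ T, u ≠ v → m ≤ (GG m).dist u v} _ _ (seed_sep hm)
  intro c hc hchain _
  refine ⟨⋃₀ c, ?_, fun s hs => Set.subset_sUnion_of_mem hs⟩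
  rintro u ⟨s, hs, hu⟩ v ⟨t, ht, hv⟩ hne
  rcases hchain.total hs ht with h | h
  · exact hc ht u (h hu) v hv hne
  · exact hc hs u hu v (h hv) hne

lemma net_small {m : ℕ} (hm : 2 ≤ m) {S : Set (VV m)} (hs : seed m ⊆ S)
    (hS : IsNet (GG m) m S) :
    cheeger (netGraph (GG m) m S) ≤ 1024 / 2 ^ m := by
  classical
  have hroot : ∀ v ∈ S, 3 * m ≤ v.l → v.i = m - 1 := by
    intro v hv hl
    have h1 := v.hi
    obtain ⟨u, a, _, c⟩ := to_root (m - 1 - v.i) v hl (by omega)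
    by_cases h : v = u
    · rw [h]; exact a
    · have := hS.prop v hv u (hs (Or.inl a)) h
      omega
  have hfin : {v : S | v.1.l ≤ 4 * m}.Finite :=
    (fin_lvl (m := m) (4 * m)).preimage Subtype.val_injective.injOn
  let A : Finset S := hfin.toFinset
  have hA : ∀ v : S, v ∈ A ↔ v.1.l ≤ 4 * m := fun v => by simp [A]
  have hAcard : 2 ^ (3 * m - 2 * ((m + 1) / 2)) ≤ A.card := by
    have hlt : ∀ z : Fin (2 ^ (3 * m - 2 * ((m + 1) / 2))),
        2 ^ ((m + 1) / 2 + 1) * z.val < 2 ^ (3 * m - (m + 1) / 2 + 1 - 3 * 0) := by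
      intro z
      have e : 3 * m - (m + 1) / 2 + 1 - 3 * 0 =
        ((m + 1) / 2 + 1) + (3 * m - 2 * ((m + 1) / 2)) := by omega
      rw [e, pow_add 2 ((m + 1) / 2 + 1)]
      exact Nat.mul_lt_mul_of_pos_left z.2 (by positivity)
    let g : Fin (2 ^ (3 * m - 2 * ((m + 1) / 2))) → S := fun z =>
      ⟨mk (3 * m - (m + 1) / 2) 0 (2 ^ ((m + 1) / 2 + 1) * z.val) (by omega) (Or.inl rfl) (hlt z),
        hs (Or.inr ⟨rfl, by simp⟩)⟩
    have := Finset.card_le_card_of_injOn (s := Finset.univ) (t := A) g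
      (fun z _ => by
        rw [Finset.mem_coe, hA]
        show 3 * m - (m + 1) / 2 ≤ 4 * m
        omega)
      (fun a _ b _ h => by
        have h1 : 2 ^ ((m + 1) / 2 + 1) * a.val = 2 ^ ((m + 1) / 2 + 1) * b.val :=
          congrArg (fun v : S => v.1.y) h
        exact Fin.ext (Nat.eq_of_mul_eq_mul_left (by positivity) h1))
    simpa using this
  let T : Finset (ℕ × ℕ × ℕ × ℕ) :=
    Finset.range 2 ×ˢ Finset.range (2 ^ (m + 6)) ×ˢ Finset.range 2 ×ˢ Finset.range 2
  have hT : T.card = 2 ^ (m + 9) := by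
    simp only [T, Finset.card_product, Finset.card_range]
    ring
  have facts : ∀ u v : S, (netGraph (GG m) m S).Adj u v → u ∈ A → v ∉ A →
      u.1.i = m - 1 ∧ v.1.i = m - 1 ∧ 4 * m - 1 ≤ u.1.l ∧ u.1.l ≤ 4 * m ∧
      4 * m + 1 ≤ v.1.l ∧ v.1.l ≤ 4 * m + 2 ∧
      u.1.y / 2 ^ (u.1.l - (4 * m - 1)) = v.1.y / 2 ^ (v.1.l - (4 * m - 1)) := by
    intro u v hadj hu hv
    rw [hA] at hu hv
    have hd : (GG m).dist u.1 v.1 ≤ 2 * m := hadj.2
    have hvi := hroot v.1 v.2 (by omega)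
    have h1 := dist_lvl u.1 v.1 (by omega)
    have hui := hroot u.1 u.2 (by omega)
    refine ⟨hui, hvi, by omega, hu, by omega, by omega, ?_⟩
    by_contra hne
    have := dist_grp hm u.1 v.1 hui hvi (by omega) (by omega) hne
    omega
  have hbd : (edgeBoundary (netGraph (GG m) m S) A).encard ≤ (2 ^ (m + 9) : ℕ) := by
    let B : Set (S × S) := {p | (netGraph (GG m) m S).Adj p.1 p.2 ∧ p.1 ∈ A ∧ p.2 ∉ A}
    have h1 : edgeBoundary (netGraph (GG m) m S) A ⊆ (fun p : S × S => s(p.1, p.2)) '' B := by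
      rintro _ ⟨u, v, a, b, c, rfl⟩
      exact ⟨(u, v), ⟨a, b, c⟩, rfl⟩
    refine (Set.encard_le_encard h1).trans ((Set.encard_image_le _ _).trans ?_)
    rw [← hT, ← Set.encard_coe_eq_coe_finsetCard]
    apply Set.encard_le_encard_of_injOn
      (f := fun p : S × S => (p.2.1.l - (4 * m + 1), p.2.1.y, p.1.1.l - (4 * m - 1), p.1.1.y % 2))
    · rintro ⟨u, v⟩ ⟨a, b, c⟩
      obtain ⟨f1, f2, f3, f4, f5, f6, f7⟩ := facts u v a b c
      have h2 := v.1.hy
      have h3 : 2 ^ (v.1.l + 1 - 3 * v.1.i) ≤ 2 ^ (m + 6) :=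
        Nat.pow_le_pow_right (by norm_num) (by omega)
      simp only [T, Finset.coe_product, Finset.coe_range, Set.mem_prod, Set.mem_Iio]
      omega
    · rintro ⟨u, v⟩ ⟨a, b, c⟩ ⟨u', v'⟩ ⟨a', b', c'⟩ h
      obtain ⟨f1, f2, f3, f4, f5, f6, f7⟩ := facts u v a b c
      obtain ⟨g1, g2, g3, g4, g5, g6, g7⟩ := facts u' v' a' b' c'
      simp only [Prod.mk.injEq] at h
      obtain ⟨h1, h2, h3, h4⟩ := h
      have e1 : v.1.l = v'.1.l := by omega
      have e2 : u.1.l = u'.1.l := by omega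
      have e3 : u.1.y = u'.1.y := by
        rw [e1, h2, ← g7, h3] at f7
        have : u'.1.l - (4 * m - 1) = 0 ∨ u'.1.l - (4 * m - 1) = 1 := by omega
        rcases this with h | h
        · simpa [h] using f7
        · rw [h, pow_one] at f7
          omega
      exact Prod.ext (Subtype.ext (VV.ext' e2 (f1.trans g1.symm) e3))
        (Subtype.ext (VV.ext' e1 (f2.trans g2.symm) h2))
  have hne : A.Nonempty := Finset.card_pos.1 (lt_of_lt_of_le (by positivity) hAcard)
  refine (iInf_le_of_le A (iInf_le _ hne)).trans ?_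
  have h2 := ENat.toENNReal_le.2 hbd
  rw [ENat.toENNReal_coe] at h2
  have hpos : (A.card : ℝ≥0∞) ≠ 0 := by exact_mod_cast hne.card_pos.ne'
  rw [ENNReal.div_le_iff hpos (ENNReal.natCast_ne_top _)]
  refine h2.trans ?_
  rw [← ENNReal.mul_div_right_comm,
    ENNReal.le_div_iff_mul_le (Or.inl (by positivity)) (Or.inl (by finiteness))]
  have h3 : 2 ^ (m + 9) * 2 ^ m ≤ 1024 * A.card := by
    calc 2 ^ (m + 9) * 2 ^ m = 2 ^ (2 * m + 9) := by rw [← pow_add]; congr 1; omega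
      _ ≤ 2 ^ (10 + (3 * m - 2 * ((m + 1) / 2))) :=
        Nat.pow_le_pow_right (by norm_num) (by omega)
      _ = 1024 * 2 ^ (3 * m - 2 * ((m + 1) / 2)) := by rw [pow_add]; norm_num
      _ ≤ _ := Nat.mul_le_mul_left _ hAcard
  exact_mod_cast h3


section Lower

variable {V : Type} (G : SimpleGraph V)

open Classical in
/-- the closed neighbourhood of a vertex of a locally finite graph, as a finset -/
noncomputable def N1 (hf : ∀ v, (G.neighborSet v).Finite) (v : V) : Finset V :=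
  insert v (hf v).toFinset

open Classical in
/-- a finset which is the ball of radius `n` -/
noncomputable def Bl (hf : ∀ v, (G.neighborSet v).Finite) : ℕ → V → Finset V
  | 0, u => {u}
  | n + 1, u => (N1 G hf u).biUnion (Bl hf n)

variable {G}

lemma card_N1 {d : ℕ} (hf : ∀ v, (G.neighborSet v).Finite)
    (hdeg : ∀ v, (G.neighborSet v).encard < d) (v : V) : (N1 G hf v).card ≤ d := by
  classical
  unfold N1
  refine (Finset.card_insert_le _ _).trans ?_
  have h := hdeg v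
  rw [(hf v).encard_eq_coe_toFinset_card] at h
  have : (hf v).toFinset.card < d := by exact_mod_cast h
  omega

lemma card_Bl {d : ℕ} (hf : ∀ v, (G.neighborSet v).Finite)
    (hdeg : ∀ v, (G.neighborSet v).encard < d) (n : ℕ) : ∀ u, (Bl G hf n u).card ≤ d ^ n := by
  classical
  induction n with
  | zero => intro u; simp [Bl]
  | succ n ih =>
    intro u
    have h1 : (Bl G hf (n + 1) u).card ≤ (N1 G hf u).card * d ^ n :=
      Finset.card_biUnion_le_card_mul _ _ _ fun w _ => ih w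
    refine h1.trans ?_
    rw [pow_succ']
    exact Nat.mul_le_mul_right _ (card_N1 hf hdeg u)

lemma mem_Bl_of_walk (hf : ∀ v, (G.neighborSet v).Finite) (n : ℕ) : ∀ u v (p : G.Walk u v),
    p.length ≤ n → v ∈ Bl G hf n u := by
  classical
  induction n with
  | zero =>
    intro u v p hp
    have : u = v := SimpleGraph.Walk.eq_of_length_eq_zero (p := p) (by omega)
    subst this
    simp [Bl]
  | succ n ih =>
    intro u v p hp
    cases p with
    | nil =>
      refine Finset.mem_biUnion.2 ⟨u, by simp [N1], ih u u SimpleGraph.Walk.nil (by simp)⟩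
    | @cons _ w _ h p =>
      rw [SimpleGraph.Walk.length_cons] at hp
      refine Finset.mem_biUnion.2 ⟨w, ?_, ih w v p (by omega)⟩
      simp only [N1, Finset.mem_insert, Set.Finite.mem_toFinset, mem_neighborSet]
      exact Or.inr h

lemma mem_Bl (hG : G.Connected) (hf : ∀ v, (G.neighborSet v).Finite) {n : ℕ} {u v : V}
    (h : G.dist u v ≤ n) : v ∈ Bl G hf n u := by
  obtain ⟨p, hp⟩ := hG.exists_walk_length_eq_dist u v
  exact mem_Bl_of_walk hf n u v p (by omega)

lemma dist_of_mem_Bl (hG : G.Connected) (hf : ∀ v, (G.neighborSet v).Finite) (n : ℕ) :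
    ∀ {u v : V}, v ∈ Bl G hf n u → G.dist u v ≤ n := by
  classical
  induction n with
  | zero =>
    intro u v h
    simp only [Bl, Finset.mem_singleton] at h
    subst h
    simp
  | succ n ih =>
    intro u v h
    obtain ⟨w, hw, hv⟩ := Finset.mem_biUnion.1 h
    have h1 := ih hv
    have h2 : G.dist u w ≤ 1 := by
      simp only [N1, Finset.mem_insert, Set.Finite.mem_toFinset, mem_neighborSet] at hw
      rcases hw with rfl | hw
      · simp
      · exact (SimpleGraph.dist_eq_one_iff_adj.2 hw).le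
    have := hG.dist_triangle (u := u) (v := w) (w := v)
    omega

/-- every vertex is at distance less than `k` from a `k`-net -/
lemma net_cover {k : ℕ} (hk : 1 ≤ k) {S : Set V} (hS : IsNet G k S) (v : V) :
    ∃ w ∈ S, G.dist v w ≤ k - 1 := by
  by_contra hcon
  push Not at hcon
  have h1 : ∀ w ∈ S, k ≤ G.dist v w := fun w hw => by
    have := hcon w hw
    omega
  have h2 : v ∈ S := by
    refine hS.le_of_ge (y := insert v S) ?_ (Set.subset_insert v S) (Set.mem_insert v S)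
    intro a ha b hb hab
    rcases Set.mem_insert_iff.1 ha with rfl | ha'
    · rcases Set.mem_insert_iff.1 hb with rfl | hb'
      · exact absurd rfl hab
      · exact h1 b hb'
    · rcases Set.mem_insert_iff.1 hb with rfl | hb'
      · rw [SimpleGraph.dist_comm]
        exact h1 a ha'
      · exact hS.prop a ha' b hb' hab
  have := h1 v h2
  rw [SimpleGraph.dist_self] at this
  omega

/-- **The lower bound.** -/
lemma lower (hG : G.Connected) (d k : ℕ) (hk : 1 ≤ k)
    (hdeg : ∀ v, (G.neighborSet v).encard < d) (h : ℝ≥0∞) (hh : h < cheeger G) (S : Set V)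
    (hS : IsNet G k S) : h / (d : ℝ≥0∞) ^ k ≤ cheeger (netGraph G k S) := by
  classical
  have hf : ∀ v, (G.neighborSet v).Finite := fun v =>
    Set.encard_ne_top_iff.1 ((hdeg v).trans_le le_top).ne
  refine le_iInf fun A => le_iInf fun hA => ?_
  obtain ⟨B, hBdef⟩ : ∃ B : Finset V, B = A.biUnion fun u => Bl G hf (k - 1) u.1 := ⟨_, rfl⟩
  have hself : ∀ u : V, u ∈ Bl G hf (k - 1) u := fun u => mem_Bl hG hf (by simp)
  have hAB : A.card ≤ B.card := by
    refine Finset.card_le_card_of_injOn (fun u => u.1) (fun u hu => ?_)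
      (fun a _ b _ hab => Subtype.ext hab)
    rw [Finset.mem_coe, hBdef]
    exact Finset.mem_biUnion.2 ⟨u, hu, hself u.1⟩
  have hBne : B.Nonempty := Finset.card_pos.1 (lt_of_lt_of_le hA.card_pos hAB)
  have hB0 : (B.card : ℝ≥0∞) ≠ 0 := by exact_mod_cast hBne.card_pos.ne'
  have hA0 : (A.card : ℝ≥0∞) ≠ 0 := by exact_mod_cast hA.card_pos.ne'
  have hc : h * B.card ≤ ((edgeBoundary G B).encard : ℝ≥0∞) := by
    have h1 : h ≤ ((edgeBoundary G B).encard : ℝ≥0∞) / (B.card : ℝ≥0∞) :=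
      hh.le.trans (iInf_le_of_le B (iInf_le _ hBne))
    rwa [ENNReal.le_div_iff_mul_le (Or.inl hB0) (Or.inl (ENNReal.natCast_ne_top _))] at h1
  obtain ⟨U, hU⟩ : ∃ U : Finset S, U = A.filter fun u => ∃ w : S, w ∉ A ∧
    (netGraph G k S).Adj u w := ⟨_, rfl⟩
  obtain ⟨P, hP⟩ : ∃ P : Finset (V × V), P = U.biUnion fun u =>
    (Bl G hf (k - 1) u.1).biUnion fun x => (N1 G hf x).image fun y => (x, y) := ⟨_, rfl⟩
  have h1 : edgeBoundary G B ⊆ (fun p : V × V => s(p.1, p.2)) '' (P : Set (V × V)) := by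
    rintro _ ⟨x, y, hxy, hx, hy, rfl⟩
    refine ⟨(x, y), ?_, rfl⟩
    rw [hBdef] at hx hy
    obtain ⟨u, hu, hux⟩ := Finset.mem_biUnion.1 hx
    obtain ⟨w, hw, hyw⟩ := net_cover hk hS y
    have hwA : (⟨w, hw⟩ : S) ∉ A := fun hwA => hy (Finset.mem_biUnion.2 ⟨⟨w, hw⟩, hwA,
      mem_Bl hG hf (by rw [SimpleGraph.dist_comm]; exact hyw)⟩)
    have hne : u ≠ ⟨w, hw⟩ := fun e => hwA (e ▸ hu)
    have hd1 := dist_of_mem_Bl hG hf (k - 1) hux
    have hd2 := SimpleGraph.dist_eq_one_iff_adj.2 hxy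
    have hd3 := hG.dist_triangle (u := u.1) (v := x) (w := y)
    have hd4 := hG.dist_triangle (u := u.1) (v := y) (w := w)
    have hadj : (netGraph G k S).Adj u ⟨w, hw⟩ := by
      refine ⟨hne, ?_⟩
      show G.dist u.1 w ≤ 2 * k
      omega
    rw [Finset.mem_coe, hP]
    refine Finset.mem_biUnion.2 ⟨u, ?_, Finset.mem_biUnion.2 ⟨x, hux, ?_⟩⟩
    · rw [hU]
      exact Finset.mem_filter.2 ⟨hu, ⟨w, hw⟩, hwA, hadj⟩
    · refine Finset.mem_image.2 ⟨y, ?_, rfl⟩
      simp only [N1, Finset.mem_insert, Set.Finite.mem_toFinset, mem_neighborSet]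
      exact Or.inr hxy
  have h2 : P.card ≤ U.card * d ^ k := by
    rw [hP]
    refine Finset.card_biUnion_le_card_mul _ _ _ fun u _ => ?_
    have h3 : ((Bl G hf (k - 1) u.1).biUnion fun x => (N1 G hf x).image fun y => (x, y)).card ≤
        (Bl G hf (k - 1) u.1).card * d :=
      Finset.card_biUnion_le_card_mul _ _ _ fun x _ =>
        Finset.card_image_le.trans (card_N1 hf hdeg x)
    refine h3.trans ?_
    obtain ⟨j, rfl⟩ : ∃ j, k = j + 1 := ⟨k - 1, by omega⟩
    rw [Nat.add_sub_cancel, pow_succ]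
    exact Nat.mul_le_mul_right _ (card_Bl hf hdeg j u.1)
  have h3 : (U.card : ℕ∞) ≤ (edgeBoundary (netGraph G k S) A).encard := by
    have hw : ∀ u : S, u ∈ U → ∃ w : S, w ∉ A ∧ (netGraph G k S).Adj u w := by
      intro u hu
      rw [hU] at hu
      exact (Finset.mem_filter.1 hu).2
    have : Nonempty S := ⟨hA.choose⟩
    choose! w hw1 hw2 using hw
    have h4 := card_le_boundary (netGraph G k S) A (U.image fun u => (u, w u)) (by
      intro p hp
      obtain ⟨u, hu, rfl⟩ := Finset.mem_image.1 hp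
      refine ⟨hw2 u hu, ?_, hw1 u hu⟩
      rw [hU] at hu
      exact (Finset.mem_filter.1 hu).1)
    rwa [Finset.card_image_of_injective _ (fun a b hab => congrArg Prod.fst hab)] at h4
  have h4 : (edgeBoundary G B).encard ≤ (P.card : ℕ∞) := by
    refine (Set.encard_le_encard h1).trans ((Set.encard_image_le _ _).trans ?_)
    rw [Set.encard_coe_eq_coe_finsetCard]
  have h5 : ((edgeBoundary G B).encard : ℝ≥0∞) ≤ (P.card : ℝ≥0∞) := by
    have := ENat.toENNReal_le.2 h4
    rwa [ENat.toENNReal_coe] at this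
  have h6 : (U.card : ℝ≥0∞) ≤ ((edgeBoundary (netGraph G k S) A).encard : ℝ≥0∞) := by
    have := ENat.toENNReal_le.2 h3
    rwa [ENat.toENNReal_coe] at this
  refine ENNReal.div_le_of_le_mul ?_
  rw [← ENNReal.mul_div_right_comm,
    ENNReal.le_div_iff_mul_le (Or.inl hA0) (Or.inl (ENNReal.natCast_ne_top _))]
  calc h * A.card ≤ h * B.card := by gcongr
    _ ≤ ((edgeBoundary G B).encard : ℝ≥0∞) := hc
    _ ≤ (P.card : ℝ≥0∞) := h5
    _ ≤ ((U.card * d ^ k : ℕ) : ℝ≥0∞) := by exact_mod_cast h2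
    _ = (U.card : ℝ≥0∞) * (d : ℝ≥0∞) ^ k := by push_cast; ring
    _ ≤ _ := by gcongr

/-- the trivial upper bound in terms of the degrees of the net graph, for `k = 1` -/
lemma small_one (hG : G.Connected) (d : ℕ) (hdeg : ∀ v, (G.neighborSet v).encard < d)
    (S : Set V) (hS : IsNet G 1 S) : cheeger (netGraph G 1 S) ≤ (d : ℝ≥0∞) ^ 2 := by
  classical
  have hf : ∀ v, (G.neighborSet v).Finite := fun v =>
    Set.encard_ne_top_iff.1 ((hdeg v).trans_le le_top).ne
  obtain ⟨v⟩ := hG.nonempty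
  obtain ⟨w, hw, -⟩ := net_cover le_rfl hS v
  refine (iInf_le_of_le ({⟨w, hw⟩} : Finset S)
    (iInf_le _ (Finset.singleton_nonempty _))).trans ?_
  rw [Finset.card_singleton, Nat.cast_one, div_one]
  have h1 : edgeBoundary (netGraph G 1 S) {⟨w, hw⟩} ⊆
      (fun x : S => s((⟨w, hw⟩ : S), x)) '' {x : S | x.1 ∈ (Bl G hf 2 w : Set V)} := by
    rintro _ ⟨a, b, hab, ha, hb, rfl⟩
    rw [Finset.mem_singleton] at ha
    subst ha
    exact ⟨b, mem_Bl hG hf hab.2, rfl⟩
  have h2 : (edgeBoundary (netGraph G 1 S) {⟨w, hw⟩}).encard ≤ ((Bl G hf 2 w).card : ℕ∞) := by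
    refine (Set.encard_le_encard h1).trans ((Set.encard_image_le _ _).trans ?_)
    rw [← Set.encard_coe_eq_coe_finsetCard, ← Subtype.val_injective.encard_image]
    refine Set.encard_le_encard ?_
    rintro _ ⟨x, hx, rfl⟩
    exact hx
  have h3 := ENat.toENNReal_le.2 h2
  rw [ENat.toENNReal_coe] at h3
  refine h3.trans ?_
  exact_mod_cast card_Bl hf hdeg 2 w

end Lower

/-- **The upper bound.** -/
theorem upper (h : ℝ≥0∞) (hh : h < 7 / 4) (d : ℕ) (hd : 10 ≤ d) (k : ℕ) (hk : 1 ≤ k) :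
    fBound h d k ≤ 1024 / 2 ^ k := by
  have hdeg : ∀ v : VV k, ((GG k).neighborSet v).encard < d := fun v =>
    (deg v).trans_le (by exact_mod_cast hd)
  rcases Nat.lt_or_ge 1 k with h1 | h1
  · obtain ⟨S, hs, hS⟩ := exists_net (m := k) h1
    refine le_trans (sInf_le ?_) (net_small h1 hs hS)
    exact ⟨VV k, GG k, S, conn k, inferInstance, hdeg, hh.trans_le (cheeger_GG k), hS, rfl⟩
  · have hk1 : k = 1 := by omega
    subst hk1
    obtain ⟨S, -, hS⟩ : ∃ S, (∅ : Set (VV 1)) ⊆ S ∧ IsNet (GG 1) 1 S := by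
      apply zorn_subset_nonempty
        {T : Set (VV 1) | ∀ u ∈ T, ∀ v ∈ T, u ≠ v → 1 ≤ (GG 1).dist u v} _ _ (by simp)
      intro c hc hchain _
      refine ⟨⋃₀ c, ?_, fun s hs => Set.subset_sUnion_of_mem hs⟩
      rintro u ⟨s, hs, hu⟩ v ⟨t, ht, hv⟩ hne
      rcases hchain.total hs ht with h | h
      · exact hc ht u (h hu) v hv hne
      · exact hc hs u hu v (h hv) hne
    refine le_trans (sInf_le ⟨VV 1, GG 1, S, conn 1, inferInstance, hdeg,
      hh.trans_le (cheeger_GG 1), hS, rfl⟩) ?_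
    refine (small_one (conn 1) 10 deg S hS).trans ?_
    rw [pow_one, ENNReal.le_div_iff_mul_le (Or.inl (by norm_num)) (Or.inl (by norm_num))]
    norm_num

theorem one_lt : (1 : ℝ≥0∞) < 7 / 4 := by
  rw [ENNReal.lt_div_iff_mul_lt (by norm_num) (by norm_num)]
  norm_num

/-- **The Cheeger constants of k-net graphs decay exponentially, and not faster.**
For all `h`, `d` and `k ≥ 1` one has `h / d ^ k ≤ f (h, d, k)`; for `h < 7 / 4`, `d ≥ 10` and
`k ≥ 1` one has `f (h, d, k) ≤ 1024 / 2 ^ k`. In particular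
`10 ^ (-k) ≤ f (1, 10, k) ≤ 1024 * 2 ^ (-k)` for every `k ≥ 1`, and `inf_k f (1, 10, k) = 0`: for
every `ε > 0` there is for every large `k` a graph with Cheeger constant larger than `1` and
degrees at most `9` which has a `k`-net graph with Cheeger constant smaller than `ε`. -/
theorem result :
    (∀ (h : ℝ≥0∞) (d k : ℕ), 1 ≤ k → h / (d : ℝ≥0∞) ^ k ≤ fBound h d k) ∧
    (∀ h : ℝ≥0∞, h < 7 / 4 → ∀ d : ℕ, 10 ≤ d → ∀ k : ℕ, 1 ≤ k → fBound h d k ≤ 1024 / 2 ^ k) ∧
    (∀ k : ℕ, 1 ≤ k → 1 / 10 ^ k ≤ fBound 1 10 k ∧ fBound 1 10 k ≤ 1024 / 2 ^ k) ∧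
    (⨅ (k : ℕ) (_ : 1 ≤ k), fBound 1 10 k) = 0 ∧
    ∀ ε : ℝ≥0∞, 0 < ε → ∃ K : ℕ, ∀ k : ℕ, K ≤ k →
      ∃ (V : Type) (G : SimpleGraph V) (S : Set V), Infinite V ∧ G.Connected ∧
        (∀ v, (G.neighborSet v).encard ≤ 9) ∧ 1 < cheeger G ∧ IsNet G k S ∧
        cheeger (netGraph G k S) < ε := by
  have hlow : ∀ (h : ℝ≥0∞) (d k : ℕ), 1 ≤ k → h / (d : ℝ≥0∞) ^ k ≤ fBound h d k := by
    intro h d k hk
    refine le_sInf ?_
    rintro c ⟨V, G, S, hG, hV, hdeg, hh, hS, rfl⟩
    exact lower hG d k hk hdeg h hh S hS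
  have hup := upper 1 one_lt 10 le_rfl
  have ht : Filter.Tendsto (fun k : ℕ => (1024 : ℝ≥0∞) / 2 ^ k) Filter.atTop (nhds 0) := by
    have h1 := ENNReal.Tendsto.const_mul (a := (1024 : ℝ≥0∞))
      (ENNReal.tendsto_pow_atTop_nhds_zero_of_lt_one (r := (2 : ℝ≥0∞)⁻¹)
        (ENNReal.inv_lt_one.2 (by norm_num))) (Or.inr (by norm_num))
    rw [mul_zero] at h1
    refine h1.congr fun k => ?_
    rw [div_eq_mul_inv, ENNReal.inv_pow]
  refine ⟨hlow, upper, fun k hk => ⟨?_, hup k hk⟩, ?_, ?_⟩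
  · have := hlow 1 10 k hk
    simpa using this
  · refine le_antisymm (ge_of_tendsto ht (Filter.eventually_atTop.2 ⟨1, fun k hk => ?_⟩))
      (by simp)
    exact (iInf_le_of_le k (iInf_le _ hk)).trans (hup k hk)
  · intro ε hε
    obtain ⟨K, hK⟩ := Filter.eventually_atTop.1 (ht.eventually_lt_const hε)
    refine ⟨max K 1, fun k hk => ?_⟩
    have h1 : fBound 1 10 k < ε :=
      (hup k (le_trans (le_max_right _ _) hk)).trans_lt (hK k (le_trans (le_max_left _ _) hk))
    obtain ⟨c, ⟨V, G, S, hG, hV, hdeg, hh, hS, rfl⟩, hc⟩ := sInf_lt_iff.1 h1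
    refine ⟨V, G, S, hV, hG, fun v => ?_, hh, hS, hc⟩
    exact Order.le_of_lt_add_one (by
      have := hdeg v
      norm_num at this ⊢
      exact this)

end Pool.Agent.Results.MP_f4bed7_co.ExponentialDecay
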