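import Pool.Agent.H76.NET.C

namespace Pool.Agent.Results.MP_f4bed7_co.SharpTreeNets

open Filter Topology Pool.Agent.H76.NET

/-- Let `T` be a tree all of whose degrees are at least `d ≥ 3` (possibly different, possibly
infinite). `cheeger`, `IsNet`, `netGraph` are as in `Pool/Agent/H76/NET/A.lean`.

(1) The Cheeger constants of all `k`-net graphs of `T`, over all `k ≥ 1`, are at least
`(d-1)(d-2)`.
(2) For every `k ≥ 1` the Cheeger constant of every `k`-net graph is at least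
`d (d-1)^⌈k/2⌉ - 2 (d-1)`.
(3) For `k ≥ 2` and every vertex `u` the least degree of `u` in a `k`-net graph containing `u` is
exactly the number of vertices of `T` at distance `⌈k/2⌉ + 1` from `u`; in particular this number
is an upper bound for the infimum of the Cheeger constants over all `k`-nets.
(4) If `T` is `d`-regular, then for every `k ≥ 1` the infimum of the Cheeger constants over all
`k`-nets lies between `d (d-1)^⌈k/2⌉ - 2 (d-1)` and `d (d-1)^⌈k/2⌉`; the quotient by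
`d (d-1)^⌈k/2⌉` tends to `1`. -/
theorem result (d : ℕ) (hd : 3 ≤ d) {V : Type*} (T : SimpleGraph V) (hT : T.IsTree)
    (hdeg : ∀ v, (d : ℕ∞) ≤ (T.neighborSet v).encard) :
    ((((d - 1) * (d - 2) : ℕ) : ENNReal) ≤
      ⨅ (k : ℕ) (_ : 1 ≤ k) (S : Set V) (_ : IsNet T k S), cheeger (netGraph T k S)) ∧
    (∀ k : ℕ, 1 ≤ k → ((d * (d - 1) ^ ((k + 1) / 2) - 2 * (d - 1) : ℕ) : ENNReal) ≤
      ⨅ (S : Set V) (_ : IsNet T k S), cheeger (netGraph T k S)) ∧
    (∀ k : ℕ, 2 ≤ k → ∀ u : V,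
      IsLeast {n : ℕ∞ | ∃ S, IsNet T k S ∧ ∃ hu : u ∈ S,
        n = ((netGraph T k S).neighborSet ⟨u, hu⟩).encard}
        {y | T.dist u y = (k + 1) / 2 + 1}.encard ∧
      (⨅ (S : Set V) (_ : IsNet T k S), cheeger (netGraph T k S)) ≤
        ({y | T.dist u y = (k + 1) / 2 + 1}.encard : ℕ∞)) ∧
    ((∀ v, (T.neighborSet v).encard = d) →
      (∀ k : ℕ, 1 ≤ k →
        ((d * (d - 1) ^ ((k + 1) / 2) - 2 * (d - 1) : ℕ) : ENNReal) ≤
          (⨅ (S : Set V) (_ : IsNet T k S), cheeger (netGraph T k S)) ∧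
        (⨅ (S : Set V) (_ : IsNet T k S), cheeger (netGraph T k S)) ≤
          ((d * (d - 1) ^ ((k + 1) / 2) : ℕ) : ENNReal)) ∧
      Tendsto (fun k : ℕ => (⨅ (S : Set V) (_ : IsNet T k S), cheeger (netGraph T k S)) /
        ((d * (d - 1) ^ ((k + 1) / 2) : ℕ) : ENNReal)) atTop (𝓝 1)) := by
  have h2 : ∀ k : ℕ, 1 ≤ k → ((d * (d - 1) ^ ((k + 1) / 2) - 2 * (d - 1) : ℕ) : ENNReal) ≤
      ⨅ (S : Set V) (_ : IsNet T k S), cheeger (netGraph T k S) := fun k hk =>
    le_iInf₂ (fun S hS => cheeger_lower hT hd hdeg hk hS)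
  have h1 : (((d - 1) * (d - 2) : ℕ) : ENNReal) ≤
      ⨅ (k : ℕ) (_ : 1 ≤ k) (S : Set V) (_ : IsNet T k S), cheeger (netGraph T k S) := by
    refine le_iInf₂ (fun k hk => le_trans ?_ (h2 k hk))
    have h1 : (d - 1) ^ 1 ≤ (d - 1) ^ ((k + 1) / 2) := Nat.pow_le_pow_right (by omega) (by omega)
    rw [pow_one] at h1
    have h3 : d * (d - 1) ≤ d * (d - 1) ^ ((k + 1) / 2) := Nat.mul_le_mul_left _ h1
    have h4 : (d - 1) * (d - 2) = d * (d - 1) - 2 * (d - 1) := by
      rw [← Nat.sub_mul, mul_comm]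
    have : (d - 1) * (d - 2) ≤ d * (d - 1) ^ ((k + 1) / 2) - 2 * (d - 1) := by
      rw [h4]
      exact Nat.sub_le_sub_right h3 _
    exact_mod_cast this
  have h3 : ∀ k : ℕ, 2 ≤ k → ∀ u : V,
      (⨅ (S : Set V) (_ : IsNet T k S), cheeger (netGraph T k S)) ≤
        ({y | T.dist u y = (k + 1) / 2 + 1}.encard : ℕ∞) := by
    intro k hk u
    obtain ⟨S, hS, hu, he⟩ := exists_net (o := u) hT (noLeaf hT (by omega) hdeg) hk
    refine (iInf₂_le S hS).trans ((cheeger_le_degree _ ⟨u, hu⟩).trans ?_)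
    rw [he]
    rfl
  refine ⟨h1, h2, fun k hk u => ⟨⟨?_, ?_⟩, h3 k hk u⟩, fun hreg => ?_⟩
  · obtain ⟨S, hS, hu, he⟩ := exists_net (o := u) hT (noLeaf hT (by omega) hdeg) hk
    exact ⟨S, hS, hu, he.symm⟩
  · rintro n ⟨S, hS, hu, rfl⟩
    exact degree_ge hT (by omega) hdeg hk hS hu
  · have h4 : ∀ k : ℕ, 1 ≤ k →
        (⨅ (S : Set V) (_ : IsNet T k S), cheeger (netGraph T k S)) ≤
          ((d * (d - 1) ^ ((k + 1) / 2) : ℕ) : ENNReal) := by
      intro k hk
      rcases Nat.lt_or_ge 1 k with hk2 | hk2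
      · obtain ⟨u⟩ := hT.connected.nonempty
        refine (h3 k hk2 u).trans ?_
        have h5 := sphere_le (o := u) hT hreg ((k + 1) / 2)
        have h6 := ENat.toENNReal_le.2 h5
        simpa using h6
      · obtain rfl : k = 1 := by omega
        refine (iInf₂_le Set.univ (isNet_univ hT.connected)).trans ?_
        simpa using cheeger_one hT (by omega) hreg
    refine ⟨fun k hk => ⟨h2 k hk, h4 k hk⟩, ?_⟩
    have hpos : ∀ k : ℕ, 0 < d * (d - 1) ^ ((k + 1) / 2) := fun k =>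
      Nat.mul_pos (by omega) (Nat.pow_pos (by omega))
    have hlim : Tendsto (fun k : ℕ => (1 : ENNReal) - ((2 * (d - 1) : ℕ) : ENNReal) /
        ((k : ℕ) : ENNReal)) atTop (𝓝 1) := by
      have h5 : Tendsto (fun k : ℕ => ((2 * (d - 1) : ℕ) : ENNReal) / ((k : ℕ) : ENNReal))
          atTop (𝓝 0) := by
        have := ENNReal.Tendsto.const_div (a := ((2 * (d - 1) : ℕ) : ENNReal)) (b := ⊤)
          ENNReal.tendsto_nat_nhds_top (Or.inr (ENNReal.natCast_ne_top _))
        simpa using this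
      have h6 := ENNReal.Tendsto.sub (tendsto_const_nhds (x := (1 : ENNReal))) h5
        (Or.inl ENNReal.one_ne_top)
      simpa using h6
    refine tendsto_of_tendsto_of_tendsto_of_le_of_le' hlim tendsto_const_nhds ?_ ?_
    · filter_upwards [eventually_ge_atTop 1] with k hk
      have h7 := h2 k hk
      set D : ℕ := d * (d - 1) ^ ((k + 1) / 2) with hD
      have hD0 : ((D : ℕ) : ENNReal) ≠ 0 := by exact_mod_cast (hpos k).ne'
      have hkD : k ≤ D := by
        have h8 : 2 ^ ((k + 1) / 2) ≤ (d - 1) ^ ((k + 1) / 2) := Nat.pow_le_pow_left (by omega) _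
        have h9 : (k + 1) / 2 < 2 ^ ((k + 1) / 2) := Nat.lt_two_pow_self
        have h10 : 3 * (d - 1) ^ ((k + 1) / 2) ≤ D := Nat.mul_le_mul_right _ hd
        omega
      calc (1 : ENNReal) - ((2 * (d - 1) : ℕ) : ENNReal) / ((k : ℕ) : ENNReal)
          ≤ 1 - ((2 * (d - 1) : ℕ) : ENNReal) / (D : ENNReal) := by
            refine tsub_le_tsub_left ?_ _
            exact ENNReal.div_le_div_left (by exact_mod_cast hkD) _
        _ = ((D - 2 * (d - 1) : ℕ) : ENNReal) / (D : ENNReal) := by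
            rw [ENNReal.natCast_sub, ENNReal.sub_div (fun _ _ => hD0),
              ENNReal.div_self hD0 (ENNReal.natCast_ne_top _)]
        _ ≤ _ := ENNReal.div_le_div_right h7 _
    · filter_upwards [eventually_ge_atTop 1] with k hk
      refine ENNReal.div_le_of_le_mul ?_
      rw [one_mul]
      exact h4 k hk

end Pool.Agent.Results.MP_f4bed7_co.SharpTreeNets
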